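import Pool.Agent.Helper30.DL.GoalsA

/-! Packet DL DINF: lower bound for large delays from an upper bound. -/

set_option autoImplicit false

open Filter Topology Finset

namespace Pool.Agent.Helper93.DL

open Pool.Agent.Helper30.DL

theorem bracket {F : ℝ} (hF : 0 ≤ F) : 1 + F / 2 ≤ Real.exp F * (1 - F / 2 + F ^ 3 / 2) := by
  have h1 := Real.quadratic_le_exp_of_nonneg hF
  have h2 : 0 < 1 - F / 2 + F ^ 3 / 2 := by
    rcases le_total F 1 with h | h
    · have : 0 ≤ F ^ 3 := by positivity
      linarith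
    · have : F ≤ F ^ 3 := by nlinarith [mul_nonneg hF hF]
      linarith
  have h3 : (1 + F + F ^ 2 / 2) * (1 - F / 2 + F ^ 3 / 2) ≤
      Real.exp F * (1 - F / 2 + F ^ 3 / 2) := mul_le_mul_of_nonneg_right h1 h2.le
  have h4 : 0 ≤ F ^ 3 := by positivity
  have h5 : 0 ≤ F ^ 4 := by positivity
  have h6 : 0 ≤ F ^ 5 := by positivity
  nlinarith

theorem exp_neg_le {w : ℝ} (hw : 0 ≤ w) : Real.exp (-w) ≤ 1 - w + w ^ 2 / 2 := by
  have h1 := Real.quadratic_le_exp_of_nonneg hw
  have h2 : Real.exp (-w) * Real.exp w = 1 := by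
    rw [← Real.exp_add]; simp
  have h3 : 0 < Real.exp (-w) := Real.exp_pos _
  have h4 : Real.exp (-w) * (1 + w + w ^ 2 / 2) ≤ 1 := by
    calc Real.exp (-w) * (1 + w + w ^ 2 / 2) ≤ Real.exp (-w) * Real.exp w :=
          mul_le_mul_of_nonneg_left h1 h3.le
      _ = 1 := h2
  have h5 : 0 < 1 + w + w ^ 2 / 2 := by positivity
  have h6 : 1 ≤ (1 - w + w ^ 2 / 2) * (1 + w + w ^ 2 / 2) := by
    have : 0 ≤ w ^ 4 := by positivity
    nlinarith
  exact le_of_mul_le_mul_right (le_trans h4 h6) h5

theorem stp {v F M : ℝ} (hF : 0 ≤ F) (hv : v + F ≤ M) :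
    F * (Real.exp (v + F) + Real.exp v) / 2 ≤
      Real.exp (v + F) - Real.exp v + Real.exp M * F ^ 3 / 2 := by
  have h1 := mul_le_mul_of_nonneg_left (bracket hF) (Real.exp_pos v).le
  have h2 : Real.exp (v + F) = Real.exp v * Real.exp F := Real.exp_add _ _
  have h3 : Real.exp (v + F) ≤ Real.exp M := Real.exp_le_exp.2 hv
  have h4 : 0 ≤ F ^ 3 := by positivity
  have h5 := mul_le_mul_of_nonneg_right h3 h4
  have h6 : Real.exp v * (Real.exp F * (1 - F / 2 + F ^ 3 / 2)) =
      Real.exp (v + F) * (1 - F / 2 + F ^ 3 / 2) := by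
    rw [h2]; ring
  rw [h6] at h1
  linarith

theorem sumexp {s F M : ℝ} (hF : 0 ≤ F) : ∀ n : ℕ, s + n * F ≤ M →
    F * ∑ i ∈ range (n + 1), Real.exp (s + i * F) ≤ Real.exp (s + n * F) - Real.exp s +
      F * (Real.exp s + Real.exp (s + n * F)) / 2 + n * (Real.exp M * F ^ 3 / 2)
  | 0, _ => by
    rw [zero_add, sum_range_one]
    simp only [Nat.cast_zero, zero_mul, add_zero, sub_self, zero_add]
    linarith
  | n + 1, h => by
    have e1 : s + ((n + 1 : ℕ) : ℝ) * F = (s + n * F) + F := by push_cast; ring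
    rw [e1] at h ⊢
    have ih := sumexp (s := s) (M := M) hF n (by linarith)
    have h1 := stp (v := s + n * F) hF h
    rw [sum_range_succ, e1, mul_add]
    push_cast
    linarith

/-- The main inequality. -/
theorem main_ineq {p M s D : ℝ} {k n : ℕ} (hp : 0 < p) (hM : 0 < M) (hM2 : M ≤ 2) (hs : 0 ≤ s)
    (hsM : s ≤ M) (hsF : s ≤ p * (Real.exp M - 1))
    (hn : s + n * (p * (Real.exp M - 1)) ≤ M) (hn' : M < s + (n + 1) * (p * (Real.exp M - 1)))
    (hD : (k + 1 / 2) * (p * (Real.exp M - 1)) + 1 - M - M / (Real.exp M - 1)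
        + 2 * p ^ 2 * (Real.exp M - 1) * Real.exp M ≤ D) :
    p * ∑ i ∈ range (n + 1), (Real.exp (s + i * (p * (Real.exp M - 1))) - 1) +
      (k - n) * (p * (Real.exp M - 1)) ≤ s + D := by
  set c := Real.exp M with hc
  set F := p * (c - 1) with hF
  have hc1 : 1 < c := by rw [hc]; exact Real.one_lt_exp_iff.2 hM
  have hE : 0 < c - 1 := by linarith
  have hFpos : 0 < F := mul_pos hp hE
  have h1 := sumexp (s := s) (M := M) hFpos.le n hn
  rw [← hc] at h1
  set T := ∑ i ∈ range (n + 1), Real.exp (s + i * F) with hT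
  set v := s + n * F with hv
  set a := Real.exp v with ha
  set b := Real.exp s with hb
  have hb1 : 1 + s ≤ b := by rw [hb, add_comm]; exact Real.add_one_le_exp s
  have hbc : b ≤ c := Real.exp_le_exp.2 hsM
  have hac : a ≤ c := Real.exp_le_exp.2 hn
  have hbs : b - 1 ≤ s * b := by
    have h2 := Real.add_one_le_exp (-s)
    have h3 : Real.exp (-s) * b = 1 := by rw [hb, ← Real.exp_add]; simp
    have h4 : (-s + 1) * b ≤ 1 := by
      calc (-s + 1) * b ≤ Real.exp (-s) * b :=
            mul_le_mul_of_nonneg_right h2 (Real.exp_pos s).le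
        _ = 1 := h3
    linarith
  have haw : a ≤ c * (1 - (M - v) + (M - v) ^ 2 / 2) := by
    have h2 := exp_neg_le (w := M - v) (by linarith)
    have h3 : a = c * Real.exp (-(M - v)) := by
      rw [ha, hc, ← Real.exp_add]
      congr 1
      ring
    rw [h3]
    exact mul_le_mul_of_nonneg_left h2 (by linarith)
  have hw : (M - v) ^ 2 ≤ F ^ 2 := by
    have h2 : M - v ≤ F := by rw [hv]; linarith
    have h3 : 0 ≤ M - v := by linarith
    exact pow_le_pow_left₀ h3 h2 2
  have hsum : ∑ i ∈ range (n + 1), (Real.exp (s + i * F) - 1) = T - (n + 1) := by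
    rw [sum_sub_distrib, ← hT]
    simp
  rw [hsum]
  -- multiply by `c - 1`
  have hmul : (c - 1) * (p * (T - (n + 1)) + (k - n) * F) ≤ (c - 1) * (s + D) := by
    have hDE : (k + 1 / 2) * F * (c - 1) + (c - 1) - M * (c - 1) - M + 2 * F ^ 2 * c ≤
        (c - 1) * D := by
      have h2 := mul_le_mul_of_nonneg_left hD hE.le
      have h3 : (c - 1) * ((k + 1 / 2) * F + 1 - M - M / (c - 1) + 2 * p ^ 2 * (c - 1) * c) =
          (k + 1 / 2) * F * (c - 1) + (c - 1) - M * (c - 1) - M + 2 * F ^ 2 * c := by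
        have h4 : (c - 1) * (M / (c - 1)) = M := by field_simp
        calc (c - 1) * ((k + 1 / 2) * F + 1 - M - M / (c - 1) + 2 * p ^ 2 * (c - 1) * c)
            = (k + 1 / 2) * F * (c - 1) + (c - 1) - M * (c - 1) - (c - 1) * (M / (c - 1)) +
              2 * (p * (c - 1)) ^ 2 * c := by ring
          _ = _ := by rw [h4]
      rw [h3] at h2
      exact h2
    have hT1 : (c - 1) * (p * (T - (n + 1)) + (k - n) * F) =
        F * T - (n * F + F) + (k * F * (c - 1) - (n * F) * (c - 1)) := by
      rw [hF]; ring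
    have hnF : (n : ℝ) * F = v - s := by rw [hv]; ring
    have h5 : (n : ℝ) * (c * F ^ 3 / 2) = (v - s) * (c * F ^ 2 / 2) := by
      rw [← hnF]; ring
    rw [hT1, hnF]
    rw [h5] at h1
    have h6 : 0 ≤ F ^ 2 * c := by positivity
    have h7 : (v - s) * (c * F ^ 2 / 2) ≤ F ^ 2 * c := by
      have : v - s ≤ 2 := by linarith
      have h8 := mul_le_mul_of_nonneg_right this h6
      linarith
    have h9 : c * (M - v) ^ 2 ≤ c * F ^ 2 := mul_le_mul_of_nonneg_left hw (by linarith)
    have h10 : F * (b - 1) ≤ F * (F * c) := by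
      refine mul_le_mul_of_nonneg_left (hbs.trans ?_) hFpos.le
      exact mul_le_mul hsF hbc (Real.exp_pos s).le hFpos.le
    have h11 : F * a ≤ F * c := mul_le_mul_of_nonneg_left hac hFpos.le
    nlinarith
  exact le_of_mul_le_mul_left hmul hE

/-- Packet DINF. -/
theorem dInf (hExt : ExtDStmt) : DInfStmt := by
  intro k p X hp hp1 hkp hX M D hM hM2 hD hD0 hub
  have hc1 : 1 < Real.exp M := Real.one_lt_exp_iff.2 hM
  have hE : 0 < Real.exp M - 1 := by linarith
  have hFpos : 0 < p * (Real.exp M - 1) := mul_pos hp hE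
  have hG1 : 1 ≤ 1 - p + p * Real.exp M := by nlinarith
  have hGF : 1 - p + p * Real.exp M ≤ Real.exp (p * (Real.exp M - 1)) := by
    have := Real.add_one_le_exp (p * (Real.exp M - 1))
    linarith
  have key : ∀ A, 1 ≤ A → A ≤ 1 - p + p * Real.exp M → A ≤ Real.exp M →
      Real.exp (-D) * ∏ i ∈ range (k + 1),
        (1 - p + p * min (Real.exp M) (A * (1 - p + p * Real.exp M) ^ i)) ≤ A := by
    intro A hA1 hA2 hA3
    have hApos : 0 < A := by linarith
    obtain ⟨s, hs⟩ : ∃ s, s = Real.log A := ⟨_, rfl⟩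
    have hAs : Real.exp s = A := by rw [hs]; exact Real.exp_log hApos
    have hs0 : 0 ≤ s := by rw [hs]; exact Real.log_nonneg hA1
    have hsM : s ≤ M := by
      rw [← Real.exp_le_exp, hAs]; exact hA3
    have hsF : s ≤ p * (Real.exp M - 1) := by
      rw [← Real.exp_le_exp, hAs]; exact hA2.trans hGF
    obtain ⟨n, hn⟩ : ∃ n : ℕ, n = ⌊(M - s) / (p * (Real.exp M - 1))⌋₊ := ⟨_, rfl⟩
    have hq0 : 0 ≤ (M - s) / (p * (Real.exp M - 1)) := div_nonneg (by linarith) hFpos.le
    have hn1 : (n : ℝ) ≤ (M - s) / (p * (Real.exp M - 1)) := by rw [hn]; exact Nat.floor_le hq0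
    have hn2 : (M - s) / (p * (Real.exp M - 1)) < n + 1 := by rw [hn]; exact Nat.lt_floor_add_one _
    rw [le_div_iff₀ hFpos] at hn1
    rw [div_lt_iff₀ hFpos] at hn2
    have hnk : n ≤ k := by
      by_contra hcon
      push Not at hcon
      have h1 : (k : ℝ) + 1 ≤ n := by exact_mod_cast hcon
      have h2 : ((k : ℝ) + 1) * (p * (Real.exp M - 1)) ≤ M - s :=
        le_trans (mul_le_mul_of_nonneg_right h1 hFpos.le) hn1
      have h3 : (Real.exp M - 1) ≤ k * p * (Real.exp M - 1) := by nlinarith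
      have h4 := Real.add_one_le_exp M
      nlinarith
    have hmain := main_ineq (k := k) hp hM hM2 hs0 hsM hsF (by linarith) (by linarith) hD
    -- the factors
    set c : ℕ → ℝ := fun i => if i < n + 1 then
      p * (Real.exp (s + i * (p * (Real.exp M - 1))) - 1) else p * (Real.exp M - 1) with hcdef
    have hfac : ∀ i ∈ range (k + 1),
        1 - p + p * min (Real.exp M) (A * (1 - p + p * Real.exp M) ^ i) ≤ Real.exp (c i) := by
      intro i _
      simp only [hcdef]
      split_ifs with h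
      · have h1 : A * (1 - p + p * Real.exp M) ^ i ≤
            Real.exp (s + i * (p * (Real.exp M - 1))) := by
          rw [Real.exp_add, hAs, Real.exp_nat_mul]
          exact mul_le_mul_of_nonneg_left (pow_le_pow_left₀ (by linarith) hGF i) hApos.le
        have h2 := (min_le_right (Real.exp M) (A * (1 - p + p * Real.exp M) ^ i)).trans h1
        have h3 := Real.add_one_le_exp (p * (Real.exp (s + i * (p * (Real.exp M - 1))) - 1))
        have h4 := mul_le_mul_of_nonneg_left h2 hp.le
        linarith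
      · have h2 := min_le_left (Real.exp M) (A * (1 - p + p * Real.exp M) ^ i)
        have h3 := Real.add_one_le_exp (p * (Real.exp M - 1))
        have h4 := mul_le_mul_of_nonneg_left h2 hp.le
        linarith
    have hpos : ∀ i ∈ range (k + 1),
        0 ≤ 1 - p + p * min (Real.exp M) (A * (1 - p + p * Real.exp M) ^ i) := by
      intro i _
      have h1 : 0 ≤ min (Real.exp M) (A * (1 - p + p * Real.exp M) ^ i) := by
        refine le_min (Real.exp_pos M).le (mul_nonneg hApos.le (pow_nonneg (by linarith) i))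
      have := mul_nonneg hp.le h1
      linarith
    have hprod := Finset.prod_le_prod hpos hfac
    rw [← Real.exp_sum] at hprod
    have hcsum : ∑ i ∈ range (k + 1), c i =
        p * ∑ i ∈ range (n + 1), (Real.exp (s + i * (p * (Real.exp M - 1))) - 1) +
          (k - n) * (p * (Real.exp M - 1)) := by
      have e1 : k + 1 = (n + 1) + (k - n) := by omega
      rw [e1, sum_range_add]
      have e2 : ∑ i ∈ range (n + 1), c i =
          ∑ i ∈ range (n + 1), p * (Real.exp (s + i * (p * (Real.exp M - 1))) - 1) := by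
        refine sum_congr rfl fun i hi => ?_
        rw [mem_range] at hi
        simp only [hcdef]
        rw [if_pos hi]
      have e3 : ∑ i ∈ range (k - n), c (n + 1 + i) =
          ∑ i ∈ range (k - n), p * (Real.exp M - 1) := by
        refine sum_congr rfl fun i _ => ?_
        simp only [hcdef]
        rw [if_neg (by omega)]
      rw [e2, e3, ← mul_sum, sum_const, card_range, nsmul_eq_mul, Nat.cast_sub hnk]
    rw [hcsum] at hprod
    calc Real.exp (-D) * ∏ i ∈ range (k + 1),
        (1 - p + p * min (Real.exp M) (A * (1 - p + p * Real.exp M) ^ i))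
        ≤ Real.exp (-D) * Real.exp (p * ∑ i ∈ range (n + 1),
            (Real.exp (s + i * (p * (Real.exp M - 1))) - 1) +
            (k - n) * (p * (Real.exp M - 1))) :=
          mul_le_mul_of_nonneg_left hprod (Real.exp_pos _).le
      _ ≤ Real.exp (-D) * Real.exp (s + D) :=
          mul_le_mul_of_nonneg_left (Real.exp_le_exp.2 hmain) (Real.exp_pos _).le
      _ = A := by rw [← Real.exp_add, ← hAs]; congr 1; ring
  have hub' : ∀ᶠ n in atTop, X n ≤ Real.exp M := by
    filter_upwards [hub] with n hn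
    rw [← Real.exp_log (hX.1 n)]
    exact Real.exp_le_exp.2 hn
  rcases hExt k p X hp (by linarith) hX (Real.exp M) (Real.exp (-D)) hc1.le (Real.exp_pos _)
    (by rw [Real.exp_le_one_iff]; linarith) key hub' with h | h
  · exact Or.inl h
  · right
    filter_upwards [h] with n hn
    rw [Real.le_log_iff_exp_le (hX.1 n)]
    exact hn

end Pool.Agent.Helper93.DL
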