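import Pool.Agent.Helper30.DL.GoalsC

/-! Packet DL LEAF: soundness of the leaf check. -/

set_option autoImplicit false

namespace Pool.Agent.Helper93.DL.Leaf

open Pool.Agent.Helper30.DL

/-- Closure properties of the enclosures. -/
structure Cx (p q r : ℝ) : Prop where
  add : ∀ {A B : AF} {v w : ℝ}, A.Enc p q r v → B.Enc p q r w → (A + B).Enc p q r (v + w)
  sub : ∀ {A B : AF} {v w : ℝ}, A.Enc p q r v → B.Enc p q r w → (A - B).Enc p q r (v - w)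
  mul : ∀ {A B : AF} {v w : ℝ}, A.Enc p q r v → B.Enc p q r w → (A * B).Enc p q r (v * w)
  neg : ∀ {A : AF} {v : ℝ}, A.Enc p q r v → (-A).Enc p q r (-v)
  smul : ∀ (n : ℕ) {A : AF} {v : ℝ}, A.Enc p q r v → (n • A).Enc p q r (n • v)
  mag : ∀ {A : AF} {v : ℝ}, A.Enc p q r v → |10000000000 * v| ≤ (A.mag : ℝ)
  lo : ∀ {A : AF} {v : ℝ}, A.Enc p q r v → ((A.lo : ℤ) : ℝ) ≤ 10000000000 * v
  hi : ∀ {A : AF} {v : ℝ}, A.Enc p q r v → 10000000000 * v ≤ ((A.hi : ℤ) : ℝ)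

theorem cx (h : AfsStmt) {p q r : ℝ} (hp : |p| ≤ 1) (hq : |q| ≤ 1) (hr : |r| ≤ 1) : Cx p q r where
  add hA hB := (h p q r hp hq hr _ _ _ _ hA hB).1
  sub hA hB := (h p q r hp hq hr _ _ _ _ hA hB).2.1
  mul hA hB := (h p q r hp hq hr _ _ _ _ hA hB).2.2.1
  neg hA := (h p q r hp hq hr _ _ _ _ hA hA).2.2.2.1
  smul n _ _ hA := (h p q r hp hq hr _ _ _ _ hA hA).2.2.2.2.1 n
  mag hA := (h p q r hp hq hr _ _ _ _ hA hA).2.2.2.2.2.2.1
  lo hA := (h p q r hp hq hr _ _ _ _ hA hA).2.2.2.2.2.2.2.2.1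
  hi hA := (h p q r hp hq hr _ _ _ _ hA hA).2.2.2.2.2.2.2.2.2

/-- enclosures -/
structure EncDc (D : Dc AF) (p q r : ℝ) (R : Dc ℝ) : Prop where
  d0 : D.d0.Enc p q r R.d0
  d1 : D.d1.Enc p q r R.d1
  d2 : D.d2.Enc p q r R.d2
  d3 : D.d3.Enc p q r R.d3
  d4 : D.d4.Enc p q r R.d4
  d5 : D.d5.Enc p q r R.d5

/-- enclosures -/
structure EncQ (D : Qc AF) (p q r : ℝ) (R : Qc ℝ) : Prop where
  q0 : D.q0.Enc p q r R.q0
  q1 : D.q1.Enc p q r R.q1
  q2 : D.q2.Enc p q r R.q2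
  q3 : D.q3.Enc p q r R.q3

variable {p q r : ℝ}

theorem k3_enc (hc : Cx p q r) {K : Gs AF} {R : Gs ℝ} (hK : EncGs K p q r R) {a : AF} {a' : ℝ}
    (ha : a.Enc p q r a') : (k3 K a).Enc p q r (k3 R a') := by
  cases hK
  dsimp only [k3]
  repeat' first
    | with_reducible assumption
    | with_reducible refine hc.add ?_ ?_
    | with_reducible refine hc.mul ?_ ?_

theorem dco_enc (hc : Cx p q r) {C : Cf AF} {R : Cf ℝ} (hC : EncCf C p q r R)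
    {m0 m1 m2 G rho al w b0 : AF} {b1 : H1 AF} {b2 : H2 AF}
    {m0' m1' m2' G' rho' al' w' b0' : ℝ} {b1' : H1 ℝ} {b2' : H2 ℝ}
    (h1 : m0.Enc p q r m0') (h2 : m1.Enc p q r m1') (h3 : m2.Enc p q r m2')
    (h4 : G.Enc p q r G') (h5 : rho.Enc p q r rho') (h6 : al.Enc p q r al')
    (h7 : w.Enc p q r w') (h8 : b0.Enc p q r b0') (h9 : b1.a.Enc p q r b1'.a)
    (h10 : b1.b.Enc p q r b1'.b) (h11 : b2.a.Enc p q r b2'.a) (h12 : b2.b.Enc p q r b2'.b)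
    (h13 : b2.c.Enc p q r b2'.c) :
    EncDc (dco C m0 m1 m2 G rho al w b0 b1 b2) p q r
      (dco R m0' m1' m2' G' rho' al' w' b0' b1' b2') := by
  cases hC
  refine ⟨?_, ?_, ?_, ?_, ?_, ?_⟩ <;> dsimp only [dco]
  all_goals repeat' first
    | with_reducible assumption
    | with_reducible refine hc.add ?_ ?_
    | with_reducible refine hc.mul ?_ ?_

theorem T0f_enc (hc : Cx p q r) {C : Cf AF} {R : Cf ℝ} (hC : EncCf C p q r R)
    {D : Dc AF} {D' : Dc ℝ} (hD : EncDc D p q r D')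
    {m0 m1 G rho u w s G3 : AF} {m0' m1' G' rho' u' w' s' G3' : ℝ}
    (h1 : m0.Enc p q r m0') (h2 : m1.Enc p q r m1')
    (h4 : G.Enc p q r G') (h5 : rho.Enc p q r rho') (h6 : u.Enc p q r u')
    (h7 : w.Enc p q r w') (h8 : s.Enc p q r s') (h9 : G3.Enc p q r G3') :
    (T0f C D m0 m1 G rho u w s G3).Enc p q r (T0f R D' m0' m1' G' rho' u' w' s' G3') := by
  cases hC
  cases hD
  dsimp only [T0f, H1.ev]
  repeat' first
    | with_reducible assumption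
    | with_reducible refine hc.add ?_ ?_
    | with_reducible refine hc.mul ?_ ?_
    | with_reducible refine hc.sub ?_ ?_
    | with_reducible refine hc.smul _ ?_

theorem T1f_enc (hc : Cx p q r) {C : Cf AF} {R : Cf ℝ} (hC : EncCf C p q r R)
    {D : Dc AF} {D' : Dc ℝ} (hD : EncDc D p q r D')
    {r1 e0 gam G rho u w s G3 : AF} {r1' e0' gam' G' rho' u' w' s' G3' : ℝ}
    (h1 : r1.Enc p q r r1') (h2 : e0.Enc p q r e0') (h3 : gam.Enc p q r gam')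
    (h4 : G.Enc p q r G') (h5 : rho.Enc p q r rho') (h6 : u.Enc p q r u')
    (h7 : w.Enc p q r w') (h8 : s.Enc p q r s') (h9 : G3.Enc p q r G3') :
    (T1f C D r1 e0 gam G rho u w s G3).Enc p q r
      (T1f R D' r1' e0' gam' G' rho' u' w' s' G3') := by
  cases hC
  cases hD
  dsimp only [T1f, H1.ev]
  repeat' first
    | with_reducible assumption
    | with_reducible refine hc.add ?_ ?_
    | with_reducible refine hc.mul ?_ ?_
    | with_reducible refine hc.sub ?_ ?_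
    | with_reducible refine hc.smul _ ?_

theorem qco_enc (hc : Cx p q r) {C : Cf AF} {R : Cf ℝ} (hC : EncCf C p q r R)
    {G w x zs b : AF} {G' w' x' zs' b' : ℝ}
    (h4 : G.Enc p q r G') (h5 : w.Enc p q r w') (h6 : x.Enc p q r x')
    (h7 : zs.Enc p q r zs') (h8 : b.Enc p q r b') :
    EncQ (qco C G w x zs b) p q r (qco R G' w' x' zs' b') := by
  cases hC
  refine ⟨?_, ?_, ?_, ?_⟩ <;> dsimp only [qco]
  all_goals repeat' first
    | with_reducible assumption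
    | with_reducible refine hc.add ?_ ?_
    | with_reducible refine hc.mul ?_ ?_
    | with_reducible refine hc.sub ?_ ?_
    | with_reducible refine hc.neg ?_
    | with_reducible refine hc.smul _ ?_

/-! ### constants -/

theorem toNat_sub (c : ℤ) : ((c.toNat : ℝ)) - ((-c).toNat : ℝ) = (c : ℝ) := by
  have h : ((c.toNat : ℤ)) - ((-c).toNat : ℤ) = c := Int.toNat_sub_toNat_neg c
  exact_mod_cast h

theorem center {lo hi : ℤ} {v : ℝ} (h1 : (lo : ℝ) ≤ 10000000000 * v)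
    (h2 : 10000000000 * v ≤ (hi : ℝ)) :
    |10000000000 * v - (((lo + hi) / 2 : ℤ) : ℝ)| ≤ ((((hi - lo + 1) / 2 : ℤ).toNat : ℕ) : ℝ) := by
  have h3 : lo ≤ hi := by
    have : (lo : ℝ) ≤ (hi : ℝ) := h1.trans h2
    exact_mod_cast this
  obtain ⟨c, hc⟩ : ∃ c : ℤ, c = (lo + hi) / 2 := ⟨_, rfl⟩
  obtain ⟨h, hh⟩ : ∃ h : ℤ, h = (hi - lo + 1) / 2 := ⟨_, rfl⟩
  rw [← hc, ← hh]
  have h4 : 0 ≤ h := by omega
  have h5 : ((h.toNat : ℕ) : ℝ) = (h : ℝ) := by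
    have : ((h.toNat : ℕ) : ℤ) = h := Int.toNat_of_nonneg h4
    exact_mod_cast this
  have h6 : hi ≤ c + h := by omega
  have h7 : c - h ≤ lo := by omega
  have h6' : (hi : ℝ) ≤ c + h := by exact_mod_cast h6
  have h7' : (c : ℝ) - h ≤ lo := by exact_mod_cast h7
  rw [h5, abs_le]
  constructor <;> linarith

theorem ofX_enc {lo hi : ℤ} {v : ℝ} (h1 : (lo : ℝ) ≤ 10000000000 * v)
    (h2 : 10000000000 * v ≤ (hi : ℝ)) : ∃ p : ℝ, |p| ≤ 1 ∧ ∀ q r, (AF.ofX lo hi).Enc p q r v := by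
  have h3 := center h1 h2
  obtain ⟨c, hc⟩ : ∃ c : ℤ, c = (lo + hi) / 2 := ⟨_, rfl⟩
  obtain ⟨h, hh⟩ : ∃ h : ℕ, h = ((hi - lo + 1) / 2).toNat := ⟨_, rfl⟩
  rw [← hc, ← hh] at h3
  have h4 : (h : ℝ) * ((10000000000 * v - c) / h) = 10000000000 * v - c := by
    rcases Nat.eq_zero_or_pos h with h0 | h0
    · rw [h0] at h3 ⊢
      rw [Nat.cast_zero] at h3 ⊢
      have := abs_nonpos_iff.1 h3
      rw [this, zero_mul]
    · have : (h : ℝ) ≠ 0 := by positivity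
      field_simp
  refine ⟨(10000000000 * v - c) / h, ?_, fun q r => ?_⟩
  · rw [abs_div, Nat.abs_cast]
    exact div_le_one_of_le₀ h3 (Nat.cast_nonneg h)
  · unfold AF.Enc AF.ofX
    simp only [← hc, ← hh]
    rw [toNat_sub]
    have h5 : (10000000000 : ℝ) * v - (((c : ℝ)) + ((h : ℝ) - ((0 : ℕ) : ℝ)) *
        ((10000000000 * v - c) / h) + (((0 : ℕ) : ℝ) - ((0 : ℕ) : ℝ)) * q +
        (((0 : ℕ) : ℝ) - ((0 : ℕ) : ℝ)) * r) = 0 := by
      push_cast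
      rw [sub_zero, h4]
      ring
    rw [h5]
    simp

theorem ofY_enc {lo hi : ℤ} {v : ℝ} (h1 : (lo : ℝ) ≤ 10000000000 * v)
    (h2 : 10000000000 * v ≤ (hi : ℝ)) : ∃ q : ℝ, |q| ≤ 1 ∧ ∀ p r, (AF.ofY lo hi).Enc p q r v := by
  obtain ⟨q, hq, h3⟩ := ofX_enc h1 h2
  refine ⟨q, hq, fun p r => ?_⟩
  have h4 := h3 0 0
  unfold AF.Enc AF.ofX at h4
  unfold AF.Enc AF.ofY
  refine le_trans (le_of_eq ?_) h4
  congr 1
  push_cast
  ring

theorem ofR_enc {lo hi : ℤ} {v : ℝ} (h1 : (lo : ℝ) ≤ 10000000000 * v)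
    (h2 : 10000000000 * v ≤ (hi : ℝ)) (p q r : ℝ) : (AF.ofR lo hi).Enc p q r v := by
  have h3 := center h1 h2
  unfold AF.Enc AF.ofR
  refine le_trans (le_of_eq ?_) h3
  rw [← toNat_sub]
  congr 1
  push_cast
  ring

theorem ofI_enc (s : ℤ) (p q r : ℝ) : (AF.ofI s).Enc p q r ((s : ℝ) / 10000000000) := by
  unfold AF.Enc AF.ofI AF.cst
  have h1 := toNat_sub s
  have h5 : (10000000000 : ℝ) * ((s : ℝ) / 10000000000) - (((s.toNat : ℝ)) - ((-s).toNat : ℝ) +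
      (((0 : ℕ) : ℝ) - ((0 : ℕ) : ℝ)) * p + (((0 : ℕ) : ℝ) - ((0 : ℕ) : ℝ)) * q +
        (((0 : ℕ) : ℝ) - ((0 : ℕ) : ℝ)) * r) = 0 := by
    rw [h1]
    push_cast
    ring
  show |(10000000000 : ℝ) * ((s : ℝ) / 10000000000) - (((s.toNat : ℝ)) - ((-s).toNat : ℝ) +
      (((0 : ℕ) : ℝ) - ((0 : ℕ) : ℝ)) * p + (((0 : ℕ) : ℝ) - ((0 : ℕ) : ℝ)) * q +
        (((0 : ℕ) : ℝ) - ((0 : ℕ) : ℝ)) * r)| ≤ ((0 : ℕ) : ℝ)
  rw [h5]
  simp

theorem one_enc (p q r : ℝ) : AF.one.Enc p q r 1 := by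
  unfold AF.Enc AF.one
  norm_num

theorem zer_enc (p q r : ℝ) : AF.zer.Enc p q r 0 := by
  unfold AF.Enc AF.zer
  norm_num

/-! ### the final test -/

theorem qlo_le (hc : Cx p q r) {Q : Qc AF} {Q' : Qc ℝ} (hQ : EncQ Q p q r Q') {d0 d1 : ℤ} {d : ℝ}
    (h1 : (d0 : ℝ) ≤ 10000000000 * d) (h2 : 10000000000 * d ≤ (d1 : ℝ)) :
    ((qlo Q d0 d1 : ℤ) : ℝ) ≤ 10000000000 * Q'.ev d := by
  have hD := ofR_enc h1 h2 p q r
  exact hc.lo (hc.add hQ.q0 (hc.mul hD (hc.add hQ.q1 (hc.mul hD (hc.add hQ.q2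
    (hc.mul hD hQ.q3))))))

theorem qlon_le (hc : Cx p q r) {Q : Qc AF} {Q' : Qc ℝ} (hQ : EncQ Q p q r Q') (n : ℕ)
    {d0 d1 : ℤ} {d : ℝ}
    (h1 : (d0 : ℝ) ≤ 10000000000 * d) (h2 : 10000000000 * d ≤ (d1 : ℝ)) :
    ((qlon Q n d0 d1 : ℤ) : ℝ) ≤ 10000000000 * Q'.ev d := by
  cases n with
  | zero => exact qlo_le hc hQ h1 h2
  | succ n =>
    show ((min (min (qlo Q d0 (d0 + ((d1 - d0) / 4 + 1)))
        (qlo Q (d0 + ((d1 - d0) / 4 + 1)) (d0 + 2 * ((d1 - d0) / 4 + 1))))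
      (min (qlo Q (d0 + 2 * ((d1 - d0) / 4 + 1)) (d0 + 3 * ((d1 - d0) / 4 + 1)))
        (qlo Q (d0 + 3 * ((d1 - d0) / 4 + 1)) (d0 + 4 * ((d1 - d0) / 4 + 1)))) : ℤ) : ℝ) ≤
      10000000000 * Q'.ev d
    obtain ⟨h, hh⟩ : ∃ h : ℤ, h = (d1 - d0) / 4 + 1 := ⟨_, rfl⟩
    rw [← hh]
    have h3 : d1 ≤ d0 + 4 * h := by omega
    have h3' : (d1 : ℝ) ≤ ((d0 + 4 * h : ℤ) : ℝ) := by exact_mod_cast h3
    rcases le_total (10000000000 * d) ((d0 + 2 * h : ℤ) : ℝ) with h4 | h4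
    · rcases le_total (10000000000 * d) ((d0 + h : ℤ) : ℝ) with h5 | h5
      · refine le_trans ?_ (qlo_le hc hQ h1 h5)
        exact_mod_cast (min_le_left _ _).trans (min_le_left _ _)
      · refine le_trans ?_ (qlo_le hc hQ h5 h4)
        exact_mod_cast (min_le_left _ _).trans (min_le_right _ _)
    · rcases le_total (10000000000 * d) ((d0 + 3 * h : ℤ) : ℝ) with h5 | h5
      · refine le_trans ?_ (qlo_le hc hQ h4 h5)
        exact_mod_cast (min_le_right _ _).trans (min_le_left _ _)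
      · refine le_trans ?_ (qlo_le hc hQ h5 (h2.trans h3'))
        exact_mod_cast (min_le_right _ _).trans (min_le_right _ _)

theorem quad {t0 t1 B : ℝ} (h0 : 0 ≤ t0) (hB : 0 ≤ B) (h : t1 * t1 ≤ 4 * B * t0) (s d : ℝ) :
    0 ≤ t0 * s ^ 2 + t1 * d * s + B * d ^ 2 := by
  rcases hB.eq_or_lt with hB0 | hB0
  · rw [← hB0] at h ⊢
    have h1 : t1 * t1 = 0 := le_antisymm (by linarith) (mul_self_nonneg t1)
    have h2 : t1 = 0 := mul_self_eq_zero.1 h1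
    rw [h2]
    have : 0 ≤ t0 * s ^ 2 := mul_nonneg h0 (sq_nonneg s)
    linarith
  · have h1 : 0 ≤ (4 * B) * (t0 * s ^ 2 + t1 * d * s + B * d ^ 2) := by
      have h2 : (4 * B) * (t0 * s ^ 2 + t1 * d * s + B * d ^ 2) =
          (2 * B * d + t1 * s) ^ 2 + (4 * B * t0 - t1 * t1) * s ^ 2 := by ring
      rw [h2]
      have h3 : 0 ≤ (4 * B * t0 - t1 * t1) * s ^ 2 := mul_nonneg (by linarith) (sq_nonneg s)
      have h4 := sq_nonneg (2 * B * d + t1 * s)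
      linarith
    exact nonneg_of_mul_nonneg_right h1 (by linarith)

theorem half_nonneg {t0 t1 B D : ℤ} (h : half t0 t1 B D = true) (h0 : 0 ≤ t0) {d : ℝ}
    (hd : 0 ≤ d) (hdD : 10000000000 * d ≤ (D : ℝ)) :
    0 ≤ (t0 : ℝ) + t1 * d + B * d ^ 2 := by
  have h0' : (0 : ℝ) ≤ t0 := by exact_mod_cast h0
  unfold half at h
  rw [Bool.or_eq_true, decide_eq_true_eq] at h
  rcases le_or_gt D 0 with hD | hD
  · have hD' : (D : ℝ) ≤ 0 := by exact_mod_cast hD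
    have : d = 0 := by linarith
    rw [this]
    linarith
  have h1 := h.resolve_left (by omega)
  have hD' : (0 : ℝ) < D := by exact_mod_cast hD
  split_ifs at h1 with hB
  · rw [decide_eq_true_eq] at h1
    have hB' : (B : ℝ) < 0 := by exact_mod_cast hB
    have h2 : (0 : ℝ) ≤ t0 * 100000000000000000000 + t1 * D * 10000000000 + B * D * D := by
      exact_mod_cast h1
    have h3 : 0 ≤ (D : ℝ) * (100000000000000000000 * ((t0 : ℝ) + t1 * d + B * d ^ 2)) := by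
      have h4 : (D : ℝ) * (100000000000000000000 * ((t0 : ℝ) + t1 * d + B * d ^ 2)) =
          (D - 10000000000 * d) * (t0 * 100000000000000000000) + (10000000000 * d) *
            (t0 * 100000000000000000000 + t1 * D * 10000000000 + B * D * D) +
            (-B) * (10000000000 * d) * D * (D - 10000000000 * d) := by ring
      rw [h4]
      have h5 : 0 ≤ (D : ℝ) - 10000000000 * d := by linarith
      have h6 : 0 ≤ 10000000000 * d := by linarith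
      have h7 : 0 ≤ (D - 10000000000 * d) * (t0 * 100000000000000000000) :=
        mul_nonneg h5 (by linarith)
      have h8 := mul_nonneg h6 h2
      have h9 : 0 ≤ (-B : ℝ) * (10000000000 * d) * D * (D - 10000000000 * d) :=
        mul_nonneg (mul_nonneg (mul_nonneg (by linarith) h6) hD'.le) h5
      linarith
    have h4 := nonneg_of_mul_nonneg_right h3 hD'
    linarith
  · have hB' : (0 : ℝ) ≤ B := by exact_mod_cast (not_lt.1 hB)
    rw [Bool.or_eq_true, Bool.or_eq_true, decide_eq_true_eq, decide_eq_true_eq,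
      decide_eq_true_eq] at h1
    rcases h1 with (h1 | h1) | h1
    · have h2 : (0 : ℝ) ≤ t1 := by exact_mod_cast h1
      have h3 := mul_nonneg h2 hd
      have h4 := mul_nonneg hB' (sq_nonneg d)
      linarith
    · have h2 : (t1 : ℝ) * t1 ≤ 4 * B * t0 := by exact_mod_cast h1
      have h3 := quad h0' hB' h2 1 d
      linarith
    · have h2 : (0 : ℝ) ≤ t0 * 10000000000 + t1 * D := by exact_mod_cast h1
      have h3 : 0 ≤ (D : ℝ) * (10000000000 * ((t0 : ℝ) + t1 * d)) := by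
        have h4 : (D : ℝ) * (10000000000 * ((t0 : ℝ) + t1 * d)) =
            (D - 10000000000 * d) * (t0 * 10000000000) + (10000000000 * d) *
              (t0 * 10000000000 + t1 * D) := by ring
        rw [h4]
        have h5 : 0 ≤ (D : ℝ) - 10000000000 * d := by linarith
        have h6 : 0 ≤ 10000000000 * d := by linarith
        have h7 : 0 ≤ (D - 10000000000 * d) * (t0 * 10000000000) :=
          mul_nonneg h5 (by linarith)
        have h8 := mul_nonneg h6 h2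
        linarith
      have h4 := nonneg_of_mul_nonneg_right h3 hD'
      have h5 := mul_nonneg hB' (sq_nonneg d)
      linarith

theorem fin_pos (hc : Cx p q r) {ch n : ℕ} {R : Rg} {z0 z1 : ℤ} {L : Lf} (hch : ch ≤ 2)
    (hom : 0 ≤ R.om) (hL : lfT ch R n z0 z1 L = true) {T0 T1 a zs ζ u : ℝ} {Q' : Qc ℝ}
    (h0 : L.T0.Enc p q r T0) (h1 : L.T1.Enc p q r T1) (hQ : EncQ L.Q p q r Q')
    (ha : L.a.Enc p q r a) (hz : L.zs.Enc p q r zs)
    (hz0 : (z0 : ℝ) ≤ 10000000000 * ζ) (hz1 : 10000000000 * ζ ≤ z1)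
    (hr0 : (R.om : ℝ) * a - R.bl ≤ 10000000000 * ζ)
    (hr1 : 10000000000 * ζ ≤ (R.om : ℝ) * a + R.bh) (hu : ch = 2 → u = 1) :
    u ^ 2 ≤ 10000000000 * (u ^ 2 * T0 + u * T1 * (ζ - zs) + Q'.ev (ζ - zs) * (ζ - zs) ^ 2) := by
  unfold lfT at hL
  dsimp only at hL
  obtain ⟨d0, hd0⟩ : ∃ d0 : ℤ, d0 = max z0 (R.om * L.a.lo / 10000000000 - R.bl) - L.zs.hi :=
    ⟨_, rfl⟩
  obtain ⟨d1, hd1⟩ : ∃ d1 : ℤ, d1 = min z1 (R.om * L.a.hi / 10000000000 + 1 + R.bh) - L.zs.lo :=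
    ⟨_, rfl⟩
  rw [← hd0, ← hd1] at hL
  have hom' : (0 : ℝ) ≤ R.om := by exact_mod_cast hom
  have hzl := hc.lo hz
  have hzh := hc.hi hz
  have hal := hc.lo ha
  have hah := hc.hi ha
  have e1 : ((R.om * L.a.lo / 10000000000 : ℤ) : ℝ) ≤ R.om * a := by
    have h2 : (R.om * L.a.lo / 10000000000) * 10000000000 ≤ R.om * L.a.lo :=
      Int.ediv_mul_le _ (by norm_num)
    have h3 : ((R.om * L.a.lo / 10000000000 : ℤ) : ℝ) * 10000000000 ≤ R.om * L.a.lo := by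
      exact_mod_cast h2
    have h4 := mul_le_mul_of_nonneg_left hal hom'
    linarith
  have e2 : (R.om : ℝ) * a ≤ ((R.om * L.a.hi / 10000000000 : ℤ) : ℝ) + 1 := by
    have h2 : R.om * L.a.hi < (R.om * L.a.hi / 10000000000 + 1) * 10000000000 :=
      Int.lt_ediv_add_one_mul_self _ (by norm_num)
    have h3 : (R.om : ℝ) * L.a.hi ≤ (((R.om * L.a.hi / 10000000000 : ℤ) : ℝ) + 1) *
        10000000000 := by
      exact_mod_cast h2.le
    have h4 := mul_le_mul_of_nonneg_left hah hom'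
    linarith
  have f0 : (d0 : ℝ) ≤ 10000000000 * (ζ - zs) := by
    rw [hd0]
    have h2 : ((max z0 (R.om * L.a.lo / 10000000000 - R.bl) : ℤ) : ℝ) ≤ 10000000000 * ζ := by
      rw [Int.cast_max, Int.cast_sub]
      exact max_le hz0 (by linarith)
    rw [Int.cast_sub]
    linarith
  have f1 : 10000000000 * (ζ - zs) ≤ (d1 : ℝ) := by
    rw [hd1]
    have h2 : 10000000000 * ζ ≤
        ((min z1 (R.om * L.a.hi / 10000000000 + 1 + R.bh) : ℤ) : ℝ) := by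
      rw [Int.cast_min, Int.cast_add, Int.cast_add, Int.cast_one]
      exact le_min hz1 (by linarith)
    rw [Int.cast_sub]
    linarith
  obtain ⟨d, hd⟩ : ∃ d : ℝ, d = ζ - zs := ⟨_, rfl⟩
  rw [← hd] at f0 f1 ⊢
  have g := qlon_le hc hQ n f0 f1
  obtain ⟨B, hB⟩ : ∃ B : ℤ, B = qlon L.Q n d0 d1 := ⟨_, rfl⟩
  rw [← hB] at g hL
  obtain ⟨t0, ht0⟩ : ∃ t0 : ℤ, t0 = L.T0.lo - 1 := ⟨_, rfl⟩
  rw [← ht0] at hL
  have g0 : (t0 : ℝ) + 1 ≤ 10000000000 * T0 := by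
    have h2 := hc.lo h0
    rw [ht0]
    push_cast
    linarith
  rw [Bool.and_eq_true, decide_eq_true_eq] at hL
  obtain ⟨hL0, hL1⟩ := hL
  have hL0' : (0 : ℝ) ≤ t0 := by exact_mod_cast hL0
  have gd := mul_le_mul_of_nonneg_right g (sq_nonneg d)
  by_cases h2 : ch = 2
  · rw [h2] at hL1
    simp only [Bool.and_eq_true] at hL1
    rw [hu h2]
    rcases le_total 0 d with h3 | h3
    · have h4 := half_nonneg hL1.1 hL0 h3 f1
      have h5 := mul_le_mul_of_nonneg_right (hc.lo h1) h3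
      linarith
    · have h4 := half_nonneg hL1.2 hL0 (d := -d) (by linarith) (by push_cast; linarith)
      have h5 := mul_le_mul_of_nonneg_right (hc.hi h1) (neg_nonneg.2 h3)
      rw [neg_sq] at h4
      push_cast at h4
      linarith
  · have hL2 : 0 < B ∧ (L.T1.mag : ℤ) * L.T1.mag ≤ 4 * B * t0 := by
      have : ch = 0 ∨ ch = 1 := by omega
      rcases this with h3 | h3 <;> rw [h3] at hL1 <;>
        simpa only [Bool.and_eq_true, decide_eq_true_eq] using hL1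
    obtain ⟨h3, h4⟩ := hL2
    have h3' : (0 : ℝ) < B := by exact_mod_cast h3
    have h4' : (-(L.T1.mag : ℝ)) * (-(L.T1.mag : ℝ)) ≤ 4 * B * t0 := by
      rw [neg_mul_neg]
      exact_mod_cast h4
    have h5 := quad hL0' h3'.le h4' |u| |d|
    rw [sq_abs, sq_abs] at h5
    have h6 := hc.mag h1
    have h7 : -((L.T1.mag : ℝ) * (|d| * |u|)) ≤ 10000000000 * T1 * (d * u) := by
      have h8 : |10000000000 * T1 * (d * u)| ≤ (L.T1.mag : ℝ) * (|d| * |u|) := by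
        rw [abs_mul, abs_mul d u]
        exact mul_le_mul_of_nonneg_right h6 (by positivity)
      exact (abs_le.1 h8).1
    have h8 := mul_le_mul_of_nonneg_right g0 (sq_nonneg u)
    linarith

/-! ### the two modes -/

theorem mode4 (hc : Cx p q r) {C : Cf AF} {Cr : Cf ℝ} (hC : EncCf C p q r Cr) {K : Gs AF}
    {Kr : Gs ℝ} (hK : EncGs K p q r Kr) (hk1 : Kr.c1 = 0) (hk2 : Kr.c2 = Cr.g2h)
    {ch n : ℕ} {R : Rg} {w0 w1 : ℤ} {rho al y s : AF} {ρ α w s' ζ : ℝ} (hch : ch ≤ 2)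
    (hom : 0 ≤ R.om) (hL : lfT ch R n w0 w1 (lf4 C K rho al y s) = true)
    (h1 : rho.Enc p q r ρ) (h2 : al.Enc p q r α) (h3 : y.Enc p q r w) (h4 : s.Enc p q r s')
    (hz0 : (w0 : ℝ) ≤ 10000000000 * ζ) (hz1 : 10000000000 * ζ ≤ w1)
    (hr0 : (R.om : ℝ) * (ρ * α) - R.bl ≤ 10000000000 * ζ)
    (hr1 : 10000000000 * ζ ≤ (R.om : ℝ) * (ρ * α) + R.bh) (hu : ch = 2 → ρ = 1) :
    ρ ^ 4 ≤ 10000000000 * Phi Cr 0 (ρ * α) (ρ * α - ζ) (ρ * w) ζ (Kr.ev (ρ * α)) := by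
  have ea := hc.mul h1 h2
  have eu := hc.sub h2 (hc.mul h1 h4)
  have ek := k3_enc hc hK ea
  have eal2 := hc.mul h2 h2
  have egam := hc.mul eal2 (hc.add hK.c2 (hc.mul ea ek))
  have eG := hc.mul h1 (hc.mul h1 egam)
  have eG3 := hc.add (hc.mul eal2 (hc.mul h2 ek))
    (hc.mul hC.g2h (hc.mul h4 (hc.add (hc.smul 2 eu) (hc.mul h1 h4))))
  have e0 := zer_enc p q r
  have e1 := one_enc p q r
  have eD := dco_enc hc hC (b1 := ⟨AF.zer, AF.zer⟩) (b2 := ⟨AF.zer, AF.zer, AF.zer⟩) (b1' := z1)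
    (b2' := z2) e1 egam (hc.mul egam egam) eG h1 h2 h3 e0 e0 e0 e0 e0 e0
  have ezs := hc.mul h1 (hc.mul h1 h4)
  have eT0 := T0f_enc hc hC eD e1 egam eG h1 eu h3 h4 eG3
  have eT1 := T1f_enc hc hC eD h1 e1 egam eG h1 eu h3 h4 eG3
  have eQ := qco_enc hc hC eG (hc.mul h1 h3) (hc.mul h1 eu) ezs e0
  have fin := fin_pos hc hch hom hL eT0 eT1 eQ ea ezs hz0 hz1 hr0 hr1 (u := ρ ^ 2)
    (fun h => by rw [hu h]; norm_num)
  have hev : Kr.ev (ρ * α) = ρ ^ 2 * (α * α * (Kr.c2 + ρ * α * k3 Kr (ρ * α))) := by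
    unfold Gs.ev k3
    rw [hk1]
    ring
  have split := phi_split4 Cr ρ α w s' (α * α * (Kr.c2 + ρ * α * k3 Kr (ρ * α)))
    (α * α * (α * k3 Kr (ρ * α)) + Cr.g2h * (s' * (2 • (α - ρ * s') + ρ * s')))
    (ζ - ρ * (ρ * s')) (by
      rw [hk2, nsmul_eq_mul]
      push_cast
      ring)
  have f1 : ρ ^ 2 * s' + (ζ - ρ * (ρ * s')) = ζ := by ring
  have f2 : ρ * ρ * (α * α * (Kr.c2 + ρ * α * k3 Kr (ρ * α))) =
    ρ * (ρ * (α * α * (Kr.c2 + ρ * α * k3 Kr (ρ * α)))) := by ring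
  have f3 : ρ * α - ρ ^ 2 * s' = ρ * (α - ρ * s') := by ring
  have f4 : ρ ^ 2 * s' = ρ * (ρ * s') := by ring
  have f5 : ρ ^ 4 = (ρ ^ 2) ^ 2 := by ring
  rw [f1, f2, f3, f4, f5] at split
  rw [hev, split, f5]
  exact fin

theorem mode2 (hc : Cx p q r) {C : Cf AF} {Cr : Cf ℝ} (hC : EncCf C p q r Cr) {K : Gs AF}
    {Kr : Gs ℝ} (hK : EncGs K p q r Kr)
    {ch n : ℕ} {R : Rg} {w0 w1 : ℤ} {rho al y s : AF} {ρ α w s' ζ : ℝ} (hch : ch ≤ 2)
    (hom : 0 ≤ R.om) (hL : lfT ch R n w0 w1 (lf2 C K rho al y s) = true)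
    (h1 : rho.Enc p q r ρ) (h2 : al.Enc p q r α) (h3 : y.Enc p q r w) (h4 : s.Enc p q r s')
    (hz0 : (w0 : ℝ) ≤ 10000000000 * ζ) (hz1 : 10000000000 * ζ ≤ w1)
    (hr0 : (R.om : ℝ) * (ρ * α) - R.bl ≤ 10000000000 * ζ)
    (hr1 : 10000000000 * ζ ≤ (R.om : ℝ) * (ρ * α) + R.bh) (hu : ch = 2 → ρ = 1) :
    ρ ^ 2 ≤ 10000000000 * Phi Cr 1 (ρ * α) (ρ * α - ζ) (ρ * w) ζ (Kr.ev (ρ * α)) := by
  have ea := hc.mul h1 h2
  have eu := hc.sub h2 (hc.mul h1 h4)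
  have ek := k3_enc hc hK ea
  have egam := hc.mul h2 (hc.add hK.c1 (hc.mul ea (hc.add hK.c2 (hc.mul ea ek))))
  have eG := hc.mul h1 egam
  have eG3 := hc.sub egam (hc.mul h1 (hc.mul hC.g2h (hc.mul eu eu)))
  have e1 := one_enc p q r
  have eD := dco_enc hc hC (b1 := ⟨_, _⟩) (b2 := C.eq) (b1' := ⟨_, _⟩)
    (b2' := ⟨Cr.eq.a, Cr.eq.b, Cr.eq.c⟩) (hc.mul h1 h1) (hc.mul h1 egam) (hc.mul egam egam) eG
    h1 h2 h3 (hc.mul hC.ek (hc.mul egam egam)) (hc.mul egam hC.ela) (hc.mul egam hC.elb)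
    hC.eqa hC.eqb hC.eqc
  have ezs := hc.mul h1 (hc.mul h1 h4)
  have eT0 := T0f_enc hc hC eD (hc.mul h1 h1) (hc.mul h1 egam) eG h1 eu h3 h4 eG3
  have eT1 := T1f_enc hc hC eD e1 h1 egam eG h1 eu h3 h4 eG3
  have eQ := qco_enc hc hC eG (hc.mul h1 h3) (hc.mul h1 eu) ezs hC.eqa
  have fin := fin_pos hc hch hom hL eT0 eT1 eQ ea ezs hz0 hz1 hr0 hr1 (u := ρ) hu
  have hev : Kr.ev (ρ * α) =
      ρ * (α * (Kr.c1 + ρ * α * (Kr.c2 + ρ * α * k3 Kr (ρ * α)))) := by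
    unfold Gs.ev k3
    ring
  have split := phi_split2 Cr 1 ρ α w s'
    (α * (Kr.c1 + ρ * α * (Kr.c2 + ρ * α * k3 Kr (ρ * α)))) (ζ - ρ * (ρ * s'))
  simp only [one_mul] at split
  have f1 : ρ ^ 2 * s' + (ζ - ρ * (ρ * s')) = ζ := by ring
  have f3 : ρ * α - ρ ^ 2 * s' = ρ * (α - ρ * s') := by ring
  have f4 : ρ ^ 2 * s' = ρ * (ρ * s') := by ring
  have f5 : (α - ρ * s') ^ 2 = (α - ρ * s') * (α - ρ * s') := by ring
  rw [f1, f3, f4, f5] at split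
  rw [hev, split]
  exact fin

/-- Packet LEAF. -/
theorem leaf (h : AfsStmt) : LeafStmt := by
  intro md ch C K R s n X0 X1 Y0 Y1 w0 w1 hch hom hlf z Cr Kr hz hC hK hmd X Y ζ hX0 hX1 hY0 hY1
    hz0 hz1 hr0 hr1
  obtain ⟨p, hp, hX⟩ := ofX_enc hX0 hX1
  obtain ⟨q, hq, hY⟩ := ofY_enc hY0 hY1
  have hc := cx h hp hq hz
  have hC' := hC p q hp hq
  have hK' := hK p q hp hq
  have e1 := one_enc p q z
  have hrho : (rhoA ch X0 X1).Enc p q z (chR ch X) := by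
    interval_cases ch
    exacts [hX q z, hX q z, e1]
  have hal : (alA ch X0 X1 Y0 Y1).Enc p q z (chA ch X Y) := by
    interval_cases ch
    exacts [e1, hY p z, hX q z]
  have hy : (yA ch Y0 Y1).Enc p q z (chY ch Y) := by
    interval_cases ch
    exacts [hY p z, e1, hY p z]
  have hs := ofI_enc s p q z
  have hu : ch = 2 → chR ch X = 1 := by
    intro h2
    rw [h2]
    rfl
  constructor
  · intro h0
    obtain ⟨hk1, hk2⟩ := hmd h0
    rw [h0] at hlf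
    exact mode4 hc hC' hK' hk1 hk2 hch hom hlf hrho hal hy hs hz0 hz1 hr0 hr1 hu
  · intro h0
    obtain ⟨m, rfl⟩ := Nat.exists_eq_succ_of_ne_zero h0
    exact mode2 hc hC' hK' hch hom hlf hrho hal hy hs hz0 hz1 hr0 hr1 hu

end Pool.Agent.Helper93.DL.Leaf
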