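import Pool.Agent.Helper30.DL.GoalsD
import Pool.Agent.Helper93.DL.LEAF

/-! Packet DL RGS: soundness of the region check `rgC`. -/

set_option autoImplicit false

open Finset

namespace Pool.Agent.Helper93.DL

open Pool.Agent.Helper30 Pool.Agent.Helper30.DL Pool.Agent.Helper93.DL.Leaf

theorem hlf_enc (p q r : ℝ) : hlf.Enc p q r (1 / 2) := by
  unfold AF.Enc hlf AF.cst
  norm_num

theorem c8_enc {p q r c : ℝ} (h : |c| ≤ 145 / 1000000) :
    (AF.cst 0 0 1450000).Enc p q r c := by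
  unfold AF.Enc AF.cst
  rw [abs_le] at h ⊢
  push_cast
  constructor <;> linarith [h.1, h.2]

theorem twoPi_enc (p q r : ℝ) : (AF.cst 6366197724 0 1).Enc p q r (2 / Real.pi) := by
  have h1 := Real.pi_gt_d20
  have h2 := Real.pi_lt_d20
  have h0 := Real.pi_pos
  unfold AF.Enc AF.cst
  have h3 : (6366197723 : ℝ) ≤ 10000000000 * (2 / Real.pi) := by
    rw [mul_div_assoc', le_div_iff₀ h0]
    nlinarith
  have h4 : 10000000000 * (2 / Real.pi) ≤ (6366197725 : ℝ) := by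
    rw [mul_div_assoc', div_le_iff₀ h0]
    nlinarith
  rw [abs_le]
  push_cast
  constructor <;> linarith

/-- the entries of the table -/
theorem tb_enc {T : Tb AF} {p q r : ℝ} {R : Tb ℝ} (h : EncTb T p q r R) :
    T.C.del.Enc p q r R.C.del ∧
    (T.K0.c1.Enc p q r R.K0.c1 ∧ T.K0.c2.Enc p q r R.K0.c2 ∧ T.K0.c3.Enc p q r R.K0.c3 ∧ T.K0.c4.Enc p q r R.K0.c4 ∧
      T.K0.c5.Enc p q r R.K0.c5 ∧ T.K0.c6.Enc p q r R.K0.c6 ∧ T.K0.c7.Enc p q r R.K0.c7) ∧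
    T.rk.Enc p q r R.rk ∧ T.s1.Enc p q r R.s1 ∧ T.q1.Enc p q r R.q1 ∧ T.im.Enc p q r R.im ∧
    T.il.Enc p q r R.il ∧ T.q2.Enc p q r R.q2 := by
  simp only [EncTb, Tb.toL, Cf.toL, Gs.toL, List.cons_append, List.nil_append,
    List.forall₂_cons] at h
  obtain ⟨h1, -, -, -, -, -, -, -, -, -, -, -, -, -, -, -, -, -, -, -, -, -, -, -, -, -, -, -, -, -,
    -, -, -, -, -, -, -, -, -, -, -, -, -, -, -, -, -, -, -, -, -, -, -, -, -, -, -, -, -, -, -,
    k1, k2, k3, k4, k5, k6, k7, -, -, -, -, -, -, -, a1, a2, a3, a4, a5, a6, -⟩ := h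
  exact ⟨h1, ⟨k1, k2, k3, k4, k5, k6, k7⟩, a1, a2, a3, a4, a5, a6⟩

theorem sq_W {p q r : ℝ} (hc : Cx p q r) {A : AF} {v : ℝ} {W : ℤ} (hA : A.Enc p q r v)
    (h : A.hi * 10000000000 ≤ W * W) : 10000000000 ^ 2 * v ≤ (W : ℝ) ^ 2 := by
  have h1 := hc.hi hA
  have h2 : ((A.hi : ℤ) : ℝ) * 10000000000 ≤ (W : ℝ) * W := by exact_mod_cast h
  nlinarith

theorem dv_le {p q r : ℝ} (hc : Cx p q r) {A : AF} {v a : ℝ} {mm : ℤ} (hA : A.Enc p q r v)
    (ha : |10000000000 * a| ≤ (mm : ℝ)) :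
    |10000000000 * (v * a)| ≤ ((((A.mag : ℤ) * mm) / 10000000000 + 1 : ℤ) : ℝ) := by
  have h1 := hc.mag hA
  have h2 : ((A.mag : ℤ) * mm) < (((A.mag : ℤ) * mm) / 10000000000 + 1) * 10000000000 :=
    Int.lt_ediv_add_one_mul_self _ (by norm_num)
  have h3 : ((A.mag : ℝ)) * mm < ((((A.mag : ℤ) * mm) / 10000000000 + 1 : ℤ) : ℝ) * 10000000000 := by
    exact_mod_cast h2
  have h4 : |10000000000 * (v * a)| * 10000000000 = |10000000000 * v| * |10000000000 * a| := by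
    rw [← abs_mul, ← abs_of_pos (by norm_num : (0 : ℝ) < 10000000000), ← abs_mul]
    simp only [abs_of_pos (by norm_num : (0 : ℝ) < 10000000000)]
    congr 1
    ring
  have h5 : |10000000000 * v| * |10000000000 * a| ≤ (A.mag : ℝ) * mm :=
    mul_le_mul h1 ha (abs_nonneg _) (Nat.cast_nonneg _)
  have h6 : |10000000000 * (v * a)| * 10000000000
      ≤ ((((A.mag : ℤ) * mm) / 10000000000 + 1 : ℤ) : ℝ) * 10000000000 := by
    rw [h4]
    linarith
  exact le_of_mul_le_mul_right h6 (by norm_num)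

theorem gs_enc (hG : GserStmt) {z t : ℝ} (ht0 : 0 < t) (ht1 : t ≤ Real.pi / 14)
    (hc : Cx 0 0 z) {K : Gs AF} (e1 : K.c1.Enc 0 0 z (mkGs t 0 0).c1)
    (e2 : K.c2.Enc 0 0 z (mkGs t 0 0).c2) (e3 : K.c3.Enc 0 0 z (mkGs t 0 0).c3)
    (e4 : K.c4.Enc 0 0 z (mkGs t 0 0).c4) (e5 : K.c5.Enc 0 0 z (mkGs t 0 0).c5)
    (e6 : K.c6.Enc 0 0 z (mkGs t 0 0).c6) (e7 : K.c7.Enc 0 0 z (mkGs t 0 0).c7)
    (e8 : K.c8 = AF.cst 0 0 1450000) {a : AF} {a' : ℝ} (ha : a.Enc 0 0 z a') (h1 : -1 ≤ a')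
    (h2 : a' ≤ 3 / 4) :
    (a * (a * (K.c2 + a * k3 K a))).Enc 0 0 z (gf t 0 a') := by
  obtain ⟨c8, hc8, he⟩ := hG t 0 a' ht0 ht1 le_rfl (by norm_num) h1 h2
  have hE : EncGs K 0 0 z (mkGs t 0 c8) :=
    ⟨e1, e2, e3, e4, e5, e6, e7, by rw [e8]; exact c8_enc hc8⟩
  have h := hc.mul ha (hc.mul ha (hc.add hE.c2 (hc.mul ha (k3_enc hc hE ha))))
  have e : gf t 0 a' = a' * (a' * ((mkGs t 0 c8).c2 + a' * k3 (mkGs t 0 c8) a')) := by
    rw [he]
    have : (mkGs t 0 c8).c1 = 0 := by simp [mkGs]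
    unfold Gs.ev k3
    rw [this]
    ring
  rw [e]
  exact h

theorem cast1 {a b c d : ℤ} (h : a + b + c ≤ d) : (a : ℝ) + b + c ≤ d := by exact_mod_cast h

theorem cast2 {a b c d : ℤ} (h : a - b + c ≤ d) : (a : ℝ) - b + c ≤ d := by exact_mod_cast h

theorem cast3 {a b c d : ℤ} (h : d ≤ a + b - c) : (d : ℝ) ≤ a + b - c := by exact_mod_cast h

theorem rgs (hA : AfsStmt) (hG : GserStmt) (hR : RgnStmt) (hC : CstStmt) : RgsStmt := by
  intro k hk t ht T P em z R D hT hem0 hem1 hm hM hrg w hw hd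
  obtain ⟨hz, hE, hK0, hK1⟩ := hT
  obtain ⟨ht0, ht1, -, -, hpp, -⟩ := hC k hk t ht
  obtain ⟨edel, ⟨e1, e2, e3, e4, e5, e6, e7⟩, erk, es1, eq1, eim, eil, eq2⟩ :=
    tb_enc (hE 0 0 (by simp) (by simp))
  have hc : Cx 0 0 z := cx hA (by simp) (by simp) hz
  simp only [rgC, Bool.and_eq_true, decide_eq_true_eq] at hrg
  obtain ⟨⟨⟨⟨⟨⟨⟨⟨⟨⟨⟨⟨hDm, hDM⟩, hom⟩, hW1⟩, hW2⟩, hq1⟩, hbl⟩, hbh⟩, hq2⟩, hy1⟩, hy2⟩, hy3⟩,
    hy4⟩ := hrg
  have hDm' : (0 : ℝ) ≤ D.m := by exact_mod_cast hDm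
  have hDM' : (0 : ℝ) ≤ D.M := by exact_mod_cast hDM
  have hW1' : (0 : ℝ) ≤ D.W1 := by exact_mod_cast hW1
  have hW2' : (0 : ℝ) ≤ D.W2 := by exact_mod_cast hW2
  have hth : th t ≠ 0 := by
    unfold th
    positivity
  obtain ⟨m, hmd⟩ : ∃ m : ℝ, m = (D.m : ℝ) / 10000000000 := ⟨_, rfl⟩
  obtain ⟨M, hMd⟩ : ∃ M : ℝ, M = (D.M : ℝ) / 10000000000 := ⟨_, rfl⟩
  rw [← hmd, ← hMd] at hd
  rw [← hmd, ← hMd] at hw
  have hm1 : 10000000000 * m = D.m := by rw [hmd]; ring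
  have hM1 : 10000000000 * M = D.M := by rw [hMd]; ring
  have hph : (T.C.del * AF.cst 6366197724 0 1).Enc 0 0 z (ph t) := by
    have h := hc.mul edel (twoPi_enc 0 0 z)
    have e : (mkTb P em t).C.del * (2 / Real.pi) = ph t := by
      show del t * (2 / Real.pi) = ph t
      unfold del
      have := Real.pi_pos
      field_simp
    rwa [e] at h
  have haM : (AF.ofI D.M).Enc 0 0 z M := by rw [hMd]; exact ofI_enc _ _ _ _
  have ham : (AF.ofI D.m).Enc 0 0 z m := by rw [hmd]; exact ofI_enc _ _ _ _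
  have hgM := gs_enc hG ht0 ht1 hc e1 e2 e3 e4 e5 e6 e7 hK0 haM (by linarith) (by linarith)
  have hgm := gs_enc hG ht0 ht1 hc e1 e2 e3 e4 e5 e6 e7 hK0 (hc.neg ham) (by linarith)
    (by linarith)
  have hF1 := hc.add (hc.mul hph haM) hgM
  have hF2 := hc.sub (hc.mul hph ham) hgm
  have v1 : ph t * M + gf t 0 M = PL.FF (pp t) M / th t := by
    unfold gf
    have h : pp t * M = th t * (ph t * M) := by rw [hpp, mul_assoc]
    rw [sub_zero, one_mul, h]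
    field_simp
    ring
  have v2 : ph t * m - gf t 0 (-m) = -(PL.FF (pp t) (-m)) / th t := by
    unfold gf
    have h : pp t * (-m) = -(th t * (ph t * m)) := by rw [hpp]; ring
    rw [sub_zero, one_mul, h]
    field_simp
    ring
  rw [v1] at hF1
  rw [v2] at hF2
  obtain ⟨r1, r2⟩ := hR k hk t ht w m M (PL.FF (pp t) M) (-(PL.FF (pp t) (-m))) hw hd
  have hcd := hc.mul (hc.sub hF2 hF1) (hlf_enc 0 0 z)
  have hwd := hc.mul (hc.add hF2 hF1) (hlf_enc 0 0 z)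
  have w1 : (-(PL.FF (pp t) (-m)) / th t + PL.FF (pp t) M / th t) * (1 / 2)
      = (-(PL.FF (pp t) (-m)) + PL.FF (pp t) M) / (2 * th t) := by
    field_simp
  have w2 : (-(PL.FF (pp t) (-m)) / th t - PL.FF (pp t) M / th t) * (1 / 2)
      = (-(PL.FF (pp t) (-m)) - PL.FF (pp t) M) / (2 * th t) := by
    field_simp
  rw [w1] at hwd
  rw [w2] at hcd
  have s1 := sq_W hc (hc.mul (hc.mul hwd hwd) eq1) hq1
  have s2 := hc.lo (hc.mul hcd es1)
  have s3 := hc.hi (hc.mul hcd es1)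
  have t1 : (mkTb P em t).q1 = kt t * ((kt t * kn t + (kap t ^ 2 * Sg t 2).re) / 2) := rfl
  have t2 : (mkTb P em t).s1 = (kap t * Sg t 1).re := rfl
  have t3 : (mkTb P em t).rk = (kap t * lk t).re := rfl
  have t4 : (mkTb P em t).im = (kap t).im := rfl
  have t5 : (mkTb P em t).il = (kap t * (lk t - 1)).im := rfl
  have t6 : (mkTb P em t).q2
    = kt t * ((kt t * kn t * ph t ^ 2 - (kap t ^ 2 * dl t 1 ^ 2 * Sg t 2).re) / 2) := rfl
  rw [← t1, ← t2, ← t3] at r1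
  rw [← t4, ← t5, ← t6] at r2
  generalize (mkTb P em t).q1 = q1 at *
  generalize (mkTb P em t).s1 = s1v at *
  generalize (mkTb P em t).rk = rk at *
  generalize (mkTb P em t).im = im at *
  generalize (mkTb P em t).il = il at *
  generalize (mkTb P em t).q2 = q2 at *
  generalize (-(PL.FF (pp t) (-m)) - PL.FF (pp t) M) / (2 * th t) = cd at *
  generalize (-(PL.FF (pp t) (-m)) + PL.FF (pp t) M) / (2 * th t) = wd at *
  have g1 : |10000000000 * (zt k t w k - w k * (1 - rk) + cd * s1v)| ≤ (D.W1 : ℝ) := by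
    apply abs_le_of_sq_le_sq _ hW1'
    nlinarith
  have hwk := hw k le_rfl
  have hw0 := hw 0 (Nat.zero_le k)
  have hv := hc.sub (hc.sub (one_enc 0 0 z) erk) (ofI_enc R.om 0 0 z)
  have hak : |10000000000 * w k| ≤ ((max D.m D.M : ℤ) : ℝ) := by
    have h1 : (D.m : ℝ) ≤ ((max D.m D.M : ℤ) : ℝ) := by exact_mod_cast le_max_left _ _
    have h2 : (D.M : ℝ) ≤ ((max D.m D.M : ℤ) : ℝ) := by exact_mod_cast le_max_right _ _
    rw [abs_le]
    constructor <;> linarith [hwk.1, hwk.2]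
  have g2 := dv_le hc hv hak
  have hbl' := cast1 hbl
  have hbh' := cast2 hbh
  have hy1' := cast1 hy1
  have hy2' := cast1 hy2
  have hy3' := cast3 hy3
  have hy4' := cast3 hy4
  have hcy : (AF.ofI (D.M - D.m) * hlf).Enc 0 0 z ((M - m) / 2) := by
    have h := hc.mul (ofI_enc (D.M - D.m) 0 0 z) (hlf_enc 0 0 z)
    have e : ((D.M - D.m : ℤ) : ℝ) / 10000000000 * (1 / 2) = (M - m) / 2 := by
      push_cast
      rw [hMd, hmd]
      ring
    rwa [e] at h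
  have hwy : (AF.ofI (D.M + D.m) * hlf).Enc 0 0 z ((M + m) / 2) := by
    have h := hc.mul (ofI_enc (D.M + D.m) 0 0 z) (hlf_enc 0 0 z)
    have e : ((D.M + D.m : ℤ) : ℝ) / 10000000000 * (1 / 2) = (M + m) / 2 := by
      push_cast
      rw [hMd, hmd]
      ring
    rwa [e] at h
  have s4 := sq_W hc (hc.mul (hc.mul hwy hwy) eq2) hq2
  have g3 : |10000000000 * ((Xf k t w).im - im * w 0 - (M - m) / 2 * il)| ≤ (D.W2 : ℝ) := by
    apply abs_le_of_sq_le_sq _ hW2'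
    nlinarith
  have c1 := hc.lo (hc.mul hcy eil)
  have c2 := hc.hi (hc.mul hcy eil)
  have c3 := hc.lo (hc.mul eim haM)
  have c4 := hc.hi (hc.mul eim haM)
  have c5 := hc.lo (hc.neg (hc.mul eim ham))
  have c6 := hc.hi (hc.neg (hc.mul eim ham))
  rw [abs_le] at g1 g2 g3
  refine ⟨by linarith [g1.1, g2.1], by linarith [g1.2, g2.2], ?_, ?_⟩
  · rcases le_total 0 im with hi | hi
    · have := mul_le_mul_of_nonneg_left hw0.1 hi
      linarith [g3.1]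
    · have := mul_le_mul_of_nonpos_left hw0.2 hi
      linarith [g3.1]
  · rcases le_total 0 im with hi | hi
    · have := mul_le_mul_of_nonneg_left hw0.2 hi
      linarith [g3.2]
    · have := mul_le_mul_of_nonpos_left hw0.1 hi
      linarith [g3.2]

end Pool.Agent.Helper93.DL
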